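import Pool.Agent.Helper26_BSN.Stmts

/-!
# Module BEAT: every small condition can be extended so as to beat a given matrix
-/

namespace Pool.Agent.BSN.H93

open Filter Cardinal Pool.Agent.BSig Pool.Agent.BSN

variable {τ : Tower}

theorem conf_symm {X : Type} {F s : Set (X × Bool)} (h : Conf F s) : Conf s F := by
  obtain ⟨x, b, h1, h2⟩ := h
  exact ⟨x, !b, h2, by simpa using h1⟩

theorem consis_union {X : Type} {c F : Set (X × Bool)} (hc : Consis c) (hF : Consis F)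
    (h : ¬ Conf F c) : Consis (c ∪ F) := by
  rintro ⟨x, b, h1, h2⟩
  rcases h1 with h1 | h1
  · rcases h2 with h2 | h2
    · exact hc ⟨x, b, h1, h2⟩
    · exact h (conf_symm ⟨x, b, h1, h2⟩)
  · rcases h2 with h2 | h2
    · exact h ⟨x, b, h1, h2⟩
    · exact hF ⟨x, b, h1, h2⟩

theorem diff_union {X : Type} {c F : Set (X × Bool)} (hF : F.Countable) :
    ((c ∪ F) \ c).Countable := by
  refine hF.mono ?_
  rintro p ⟨h1, h2⟩
  rcases h1 with h1 | h1
  · exact absurd h1 h2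
  · exact h1

theorem not_conf_of_subset {X : Type} {F c c'' : Set (X × Bool)} (hc : Consis c'')
    (h1 : F ⊆ c'') (h2 : c ⊆ c'') : ¬ Conf F c := by
  rintro ⟨x, b, h3, h4⟩
  exact hc ⟨x, b, h1 h3, h2 h4⟩

theorem fam_mono (hM : MonoStmt τ) {φ : (Fin 5 → (MMt τ)) → Prop} (hφ : IsDelta0 φ) (k : ℕ) (t : (MMt τ)) :
    Fam φ k t ⊆ Fam φ (k + 1) t := by
  rintro S ⟨h1, h2, F, h3, h4⟩
  refine ⟨h1.trans (Nat.le_succ k), h2, F, h3, fun m => ?_⟩
  obtain ⟨α, hα⟩ := h4 m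
  exact ⟨α, (hM φ hφ).1 α α k ((k + 1 : ℕ) : (MMt τ)) m m F t le_rfl (natCast_le.2 (Nat.le_succ k))
    le_rfl hα⟩

theorem beat (h1 : UnbeatW τ) (h2 : LemmaLim) (hM : MonoStmt τ) : BeatStmt τ := by
  intro φ hφ A hA c hc hcard
  by_contra hno
  push Not at hno
  apply hA
  refine h1 φ hφ A c ⟨hc, hcard, ?_, ?_⟩
  · intro l t F hF hconf
    obtain ⟨c'', hs, hcs, hTe⟩ := hno (c ∪ (F : Set ((MMt τ) × Bool))) Set.subset_union_left
      (consis_union hc hF.2.1 hconf) (diff_union F.countable_toSet)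
    have ht : t ∈ {t | ∃ k, ∃ F ∈ Fam φ k t, (F : Set ((MMt τ) × Bool)) ⊆ c''} :=
      ⟨l, F, hF, Set.subset_union_right.trans hs⟩
    rw [← hTe] at ht
    exact ht
  · intro t ht
    by_contra hall
    push Not at hall
    choose s hs1 hs2 hs3 using hall
    obtain ⟨S, hS1, hS2, hS3, hS4⟩ := h2 (MMt τ) (fun l => Fam φ l t) (fun l => fam_mono hM hφ l t) c s
      (fun l => ⟨hs1 l, hs2 l, hs3 l⟩)
    obtain ⟨c'', hs, hcs, hTe⟩ := hno (c ∪ S) Set.subset_union_left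
      (consis_union hc hS2 hS3) (diff_union hS1)
    have ht' : t ∈ {t | Fact A t} := ht
    rw [hTe] at ht'
    obtain ⟨l, F, hF, hFs⟩ := ht'
    exact not_conf_of_subset hcs hFs (Set.subset_union_right.trans hs) (hS4 l F hF)

end Pool.Agent.BSN.H93
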