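import Pool.Agent.Helper26_BSN.Rep

/-!
# Module DBI: derivations from `G ⊕ ω` for bi-immune `G`
-/

namespace Pool.Agent.BSN.H93

open Filter Cardinal Pool.Agent.BSig Pool.Agent.BSN

variable {τ : Tower}

theorem mem_LS_true {x F : (MMt τ)} : (x, true) ∈ LS F ↔ Mem (2 * x + 1) F := by
  change Mem (lit (x, true)) F ↔ _
  rw [H75.lit_true]

theorem mem_LS_false {x F : (MMt τ)} : (x, false) ∈ LS F ↔ Mem (2 * x) F := by
  change Mem (lit (x, false)) F ↔ _
  rw [H75.lit_false]

theorem tr_iff {G : Set (MMt τ)} {F : (MMt τ)} : Tr G F ↔ LS F ⊆ gr G := by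
  constructor
  · rintro h ⟨x, b⟩ hx
    cases b
    · rw [mem_LS_false] at hx
      have := (h x).2 hx
      simpa [gr] using this
    · rw [mem_LS_true] at hx
      have := (h x).1 hx
      simpa [gr] using this
  · intro h z
    constructor
    · intro hz
      have := h (mem_LS_true.2 hz)
      simpa [gr] using this
    · intro hz
      have := h (mem_LS_false.2 hz)
      simpa [gr] using this

theorem LS_finite {G : Set (MMt τ)} {F : (MMt τ)} (hT : Tr G F) (hB : BI G) : (LS F).Finite := by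
  have i1 : Int1 (fun x => Mem (2 * x + 1) F) := Int1.of_delta0
    (IsDelta0.mem ((IsTerm.var 0).twomul.addc 1) (IsTerm.param F))
  have i0 : Int1 (fun x => Mem (2 * x) F) := Int1.of_delta0
    (IsDelta0.mem (IsTerm.var 0).twomul (IsTerm.param F))
  obtain ⟨e1, -, he1⟩ := i1.code F
  obtain ⟨e0, -, he0⟩ := i0.code F
  have f1 : (decode e1).Finite := hB e1 (Or.inl (fun x hx => (hT x).1 ((he1 x).1 hx).2))
  have f0 : (decode e0).Finite := hB e0 (Or.inr (fun x hx => (hT x).2 ((he0 x).1 hx).2))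
  have h1 : ((fun x => (x, true)) '' decode e1 : Set ((MMt τ) × Bool)).Finite := f1.image _
  have h0 : ((fun x => (x, false)) '' decode e0 : Set ((MMt τ) × Bool)).Finite := f0.image _
  refine (h1.union h0).subset ?_
  rintro ⟨x, b⟩ hx
  cases b
  · rw [mem_LS_false] at hx
    refine Or.inr ⟨x, (he0 x).2 ⟨?_, hx⟩, rfl⟩
    exact lt_of_le_of_lt (H75.le_two_mul x) (mem_lt hx)
  · rw [mem_LS_true] at hx
    refine Or.inl ⟨x, (he1 x).2 ⟨?_, hx⟩, rfl⟩
    exact lt_of_le_of_lt ((H75.le_two_mul x).trans (le_add_right' _ _)) (mem_lt hx)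

theorem gr_consis {G : Set (MMt τ)} {S : Set ((MMt τ) × Bool)} (h : S ⊆ gr G) : Consis S := by
  rintro ⟨x, b, h1, h2⟩
  have h3 := h h1
  have h4 := h h2
  cases b <;> simp [gr] at h3 h4 <;> contradiction

theorem dbi (hJ : DerJoin τ) (hM : MonoStmt τ) (hS : SciStmt τ) : DerBI τ := by
  intro φ A G hR hB
  have hφ := hR.1
  have hM1 := (hM φ hφ).1
  ext t
  change Fact A t ↔ _
  rw [hJ.2 φ A G hR t]
  constructor
  · rintro ⟨l, y, F, hy, hT, hF, hD⟩
    have hfin := LS_finite hT hB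
    have hSF : (hfin.toFinset : Set ((MMt τ) × Bool)) = LS F := hfin.coe_toFinset
    refine ⟨max l hfin.toFinset.card, hfin.toFinset, ⟨le_max_right _ _, ?_, F, hSF, ?_⟩, ?_⟩
    · rw [hSF]
      exact gr_consis (tr_iff.1 hT)
    · intro m
      exact ⟨(aat τ) l, hM1 ((aat τ) l) ((aat τ) l) l ((max l hfin.toFinset.card : ℕ) : (MMt τ)) y m F t le_rfl
        (natCast_le.2 (le_max_left _ _)) (hy m).le hD⟩
    · rw [hSF]
      exact tr_iff.1 hT
  · rintro ⟨k, S, ⟨-, -, F, hRep, hDm⟩, hSG⟩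
    have hd : IsDelta0 (fun v : Fin 2 → (MMt τ) => Der φ (v 1) k (v 0) F t) :=
      hφ.dern (IsTerm.var 1) (IsTerm.param _) (IsTerm.var 0) (IsTerm.param F) (IsTerm.param t)
    obtain ⟨y, α, hy, hD⟩ := (hS (fun v : Fin 2 → (MMt τ) => Der φ (v 1) k (v 0) F t) hd
      (fun m m' α α' hm hα h => hM1 α α' k k m m' F t hα le_rfl hm h)).1 hDm
    obtain ⟨k1, hk1⟩ := exists_le_aa F
    obtain ⟨k2, hk2⟩ := exists_le_aa α
    have hD' : Der φ α k y F t := hD
    refine ⟨max k (max k1 k2), y, F, hy, ?_, hk1 _ ?_, ?_⟩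
    · rw [tr_iff]
      have : (S : Set ((MMt τ) × Bool)) = LS F := hRep
      rw [← this]
      exact hSG
    · exact (le_max_left _ _).trans (le_max_right _ _)
    · exact hM1 α ((aat τ) (max k (max k1 k2))) k ((max k (max k1 k2) : ℕ) : (MMt τ)) y y F t
        (hk2 _ ((le_max_right _ _).trans (le_max_right _ _)))
        (natCast_le.2 (le_max_left _ _)) le_rfl hD'

end Pool.Agent.BSN.H93
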